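import Mathlib
import Pool.Agent.H985.Par.StmPar

/-!
# Gaps between almost primes with prescribed parities over `F_q[X]`, `q` even (helper526)
-/

namespace Pool.Agent.H526.GP

open Polynomial UniqueFactorizationMonoid
open scoped Classical
open Pool.Agent.H985.Chow (mob)
open Pool.Agent.H694.Typ (Mn Irn)

/-- `F` is a product of at most `r` distinct irreducible polynomials, all of degree at least
`n / (r + 1)`, and `μ(F) = σ`. -/
def Ap {K : Type} [Field K] (r n : ℕ) (σ : ℤ) (F : K[X]) : Prop :=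
  mob F = σ ∧ Multiset.card (factors F) ≤ r ∧
    ∀ P : K[X], Irreducible P → P ∣ F → n ≤ (r + 1) * P.natDegree

/-- The theorem `Pool.Agent.H985.Par.lin_few` of helper985. -/
def S_linfew : Prop :=
  ∀ (K : Type) [Field K] [Fintype K] [CharP K 2] (k : ℕ) (a : Fin k → K[X]), (∀ i, a i ≠ 0) →
    ∃ (r : ℕ) (c : ℝ), 0 < c ∧ ∃ n₀ : ℕ, ∀ n : ℕ, n₀ ≤ n →
      ∀ b : Fin k → K[X], (∀ i, (b i).natDegree < n + (a i).natDegree) →
      (∀ i j, i ≠ j → a i * b j ≠ a j * b i) →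
      (∀ P : K[X], P.Monic → Irreducible P → ∃ x : K[X], ∀ i, ¬ P ∣ a i * x + b i) →
      ∀ σ : Fin k → ℤ, (∀ i, σ i = 1 ∨ σ i = -1) →
        c * (Fintype.card K : ℝ) ^ n / (n : ℝ) ^ k ≤
          (((Mn K n).filter (fun f => ∀ i, Ap r n (σ i) (a i * f + b i))).card : ℝ)

/-- **Task GAP.**  Constellations of almost primes with prescribed parities, and no other almost
primes within distance `q ^ D`. -/
def S_gap : Prop :=
  ∀ (K : Type) [Field K] [Fintype K] [CharP K 2] (D : ℕ) (S : Finset K[X]),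
    (∀ s ∈ S, s.natDegree ≤ D) →
    (∀ P : K[X], P.Monic → Irreducible P → ∃ x : K[X], ∀ s ∈ S, ¬ P ∣ x + s) →
    ∃ (r B : ℕ) (c : ℝ), 0 < c ∧ ∃ n₀ : ℕ, ∀ n : ℕ, n₀ ≤ n →
      ∀ σ : K[X] → ℤ, (∀ s, σ s = 1 ∨ σ s = -1) →
        c * (Fintype.card K : ℝ) ^ n / (n : ℝ) ^ S.card ≤
          (((Mn K n).filter (fun f => (∀ s ∈ S, Ap r n (σ s) (f + s)) ∧
            ∀ u : K[X], u.natDegree ≤ D → u ∉ S →
              ∃ P : K[X], Irreducible P ∧ P.natDegree ≤ B ∧ P ∣ f + u)).card : ℝ)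

def S_gapasm : Prop := S_linfew → S_gap

end Pool.Agent.H526.GP
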